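import Pool.Agent.Helper69.UX.StD

set_option autoImplicit false

/-!
# Module GAM of project UX (MP_e12aa9_pr): the correlation exponent is at most `T³`
-/

namespace Pool.Agent.Helper3.UX

open Finset Filter Pool.Agent.Helper82.CN Pool.Agent.Helper11.PV Pool.Agent.Helper69.VX
  Pool.Agent.Helper69.UX

lemma gam_bb (p : ℝ) (hp : 0 < p) (hp1 : p ≤ 1 - 1 / Real.exp 2) : 0 < bb p ∧ bb p ≤ 2 := by
  have he : 0 < 1 / Real.exp 2 := by positivity
  have h1 : 0 < 1 - p := by linarith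
  have h2 : 1 / Real.exp 2 ≤ 1 - p := by linarith
  unfold bb
  constructor
  · apply Real.log_pos
    rw [lt_div_iff₀ h1]
    linarith
  · have h3 : 1 / (1 - p) ≤ Real.exp 2 := by
      rw [div_le_iff₀ h1]
      rw [div_le_iff₀ (Real.exp_pos 2)] at h2
      linarith
    have h4 : Real.log (1 / (1 - p)) ≤ Real.log (Real.exp 2) :=
      Real.log_le_log (by positivity) h3
    rwa [Real.log_exp] at h4

/-- the term for `u = r - 2 ≥ 1`: exponent inequality -/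
lemma gam_expo (ε L lam a T u : ℝ) (hε : 0 < ε) (hε1 : ε ≤ 1 / 24) (hL : 0 < L) (hL2 : L ≤ 2)
    (hlam : 50 / ε ≤ lam) (hT : L * T ≤ (2 + ε / 50) * lam) (ha : 4 * a ≤ ε / 100 * lam + 3)
    (ha0 : 0 ≤ a)
    (hu : 1 ≤ u) (huT : u + 3 ≤ (1 / 2 + ε / 2) * T + 2) :
    (u + 2) + (2 * u + 2) * a + (1 + u * (u + 3) / 2) * ((1 + ε / 8) * L) ≤
      u * ((1 / 2 + ε) * lam) := by
  have hlam1 : 50 ≤ ε * lam := by
    rw [div_le_iff₀ hε] at hlam
    linarith
  have hlam0 : 0 < lam := by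
    have : 0 < 50 / ε := by positivity
    linarith
  have hc : (1 + ε / 8) * L ≤ 3 := by nlinarith
  have hc0 : 0 < (1 + ε / 8) * L := by positivity
  -- main coefficient
  have h1 : (u + 3) / 2 * ((1 + ε / 8) * L) ≤ (1 / 2 + 2 * ε / 3) * lam + 3 := by
    have h2 : (u + 3) / 2 * ((1 + ε / 8) * L) ≤
        ((1 / 2 + ε / 2) * T + 2) / 2 * ((1 + ε / 8) * L) := by
      apply mul_le_mul_of_nonneg_right _ hc0.le
      linarith
    have h3 : ((1 / 2 + ε / 2) * T + 2) / 2 * ((1 + ε / 8) * L) =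
        ((1 / 2 + ε / 2) / 2 * (1 + ε / 8)) * (L * T) + (1 + ε / 8) * L := by ring
    have h4 : ((1 / 2 + ε / 2) / 2 * (1 + ε / 8)) * (L * T) ≤
        ((1 / 2 + ε / 2) / 2 * (1 + ε / 8)) * ((2 + ε / 50) * lam) :=
      mul_le_mul_of_nonneg_left hT (by positivity)
    have h5 : ((1 / 2 + ε / 2) / 2 * (1 + ε / 8)) * (2 + ε / 50) ≤ 1 / 2 + 2 * ε / 3 := by
      have e2 : ε ^ 2 ≤ ε / 24 := by nlinarith
      have e3 : ε ^ 3 ≤ ε / 24 := by nlinarith [e2, mul_pos hε hε]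
      nlinarith [e2, e3]
    have h6 : ((1 / 2 + ε / 2) / 2 * (1 + ε / 8)) * ((2 + ε / 50) * lam) ≤
        (1 / 2 + 2 * ε / 3) * lam := by
      calc ((1 / 2 + ε / 2) / 2 * (1 + ε / 8)) * ((2 + ε / 50) * lam)
          = (((1 / 2 + ε / 2) / 2 * (1 + ε / 8)) * (2 + ε / 50)) * lam := by ring
        _ ≤ _ := mul_le_mul_of_nonneg_right h5 hlam0.le
    linarith
  have h7 : u * ((u + 3) / 2 * ((1 + ε / 8) * L)) ≤ u * ((1 / 2 + 2 * ε / 3) * lam + 3) :=
    mul_le_mul_of_nonneg_left h1 (by linarith)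
  have h8 : (2 * u + 2) * a ≤ u * (4 * a) := by nlinarith
  have h9 : u * (4 * a) ≤ u * (ε / 100 * lam + 3) := mul_le_mul_of_nonneg_left ha (by linarith)
  have h10 : (1 + u * (u + 3) / 2) * ((1 + ε / 8) * L) =
      (1 + ε / 8) * L + u * ((u + 3) / 2 * ((1 + ε / 8) * L)) := by ring
  rw [h10]
  have h11 : u * (12 + ε / 100 * lam) ≤ u * (ε / 3 * lam) := by
    apply mul_le_mul_of_nonneg_left _ (by linarith)
    nlinarith
  have h12 : u * ((1 / 2 + 2 * ε / 3) * lam + 3) + u * (ε / 100 * lam + 3) + 3 * u + 3 * u ≤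
      u * ((1 / 2 + ε) * lam) := by
    have e : u * ((1 / 2 + 2 * ε / 3) * lam + 3) + u * (ε / 100 * lam + 3) + 3 * u + 3 * u =
      u * ((1 / 2 + 2 * ε / 3) * lam) + u * (12 + ε / 100 * lam) := by ring
    have e' : u * ((1 / 2 + ε) * lam) = u * ((1 / 2 + 2 * ε / 3) * lam) + u * (ε / 3 * lam) := by
      ring
    rw [e, e']
    linarith
  linarith

lemma gam_choose (u : ℕ) : (((u + 2).choose 2 : ℕ) : ℝ) = 1 + (u : ℝ) * (u + 3) / 2 := by
  rw [Nat.cast_choose_two]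
  push_cast
  ring

theorem hGAM (hSIZ : StSIZ) : StGAM := by
  intro p ε hp hp1 hε hε1
  obtain ⟨n0, h0⟩ := hSIZ p ε (ε / 50) 300 hp hp1 hε hε1 (by positivity)
  refine ⟨n0, fun n T N th ws hn hW hws1 hws2 hN => ?_⟩
  have S := h0 n T th hn hW
  obtain ⟨hL, hL2⟩ := gam_bb p hp hp1
  have hT304 : 304 ≤ T := by have := S.t4.1; omega
  have hnT : T ≤ n := by have := S.t4.2; omega
  have hTr : (304 : ℝ) ≤ T := by exact_mod_cast hT304
  have hn0 : (0 : ℝ) < n := by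
    have : (T : ℝ) ≤ n := by exact_mod_cast hnT
    linarith
  have hlam : 50 / ε ≤ Real.log n := by
    have h := S.t0
    have e : 1 / (ε / 50) = 50 / ε := by field_simp
    rwa [e] at h
  have hlam0 : 0 < Real.log n := lt_of_lt_of_le (by positivity) hlam
  have hLT : bb p * T ≤ (2 + ε / 50) * Real.log n := by
    have h := (abs_le.mp S.t1).2
    linarith
  have ha : 4 * Real.log ((T : ℝ) + 1) ≤ ε / 100 * Real.log n + 3 := by
    have h1 : Real.log ((T : ℝ) + 1) ≤ Real.log (2 * T) :=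
      Real.log_le_log (by linarith) (by linarith)
    have h2 : Real.log (2 * (T : ℝ)) = Real.log 2 + Real.log T :=
      Real.log_mul (by norm_num) (by linarith)
    have h3 : Real.log 2 < 0.6931471808 := Real.log_two_lt_d9
    have h4 : 8 * Real.log T ≤ ε / 50 * Real.log n := by
      have h5 : Real.log ((T : ℝ) ^ 8) ≤ Real.log ((n : ℝ) ^ (ε / 50)) :=
        Real.log_le_log (by positivity) S.t3
      rw [Real.log_pow, Real.log_rpow hn0] at h5
      exact_mod_cast h5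
    rw [h2] at h1
    linarith
  have ha0 : 0 ≤ Real.log ((T : ℝ) + 1) := Real.log_nonneg (by linarith)
  have hRT : (RR ε T : ℝ) ≤ (1 / 2 + ε / 2) * T + 1 := by
    unfold RR
    exact (Nat.ceil_lt_add_one (by positivity)).le
  have hRT2 : RR ε T ≤ T := by
    unfold RR
    apply Nat.ceil_le.mpr
    nlinarith
  have hNr : Real.exp ((1 / 2 + ε) * Real.log n) ≤ N := by
    have e : Real.exp ((1 / 2 + ε) * Real.log n) = (n : ℝ) ^ (1 / 2 + ε) := by
      rw [Real.rpow_def_of_pos hn0]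
      congr 1
      ring
    rw [e]
    exact hN
  have hws0 : 0 ≤ ws := by linarith
  -- terms with `r ≥ 3`
  have hterm : ∀ u : ℕ, 1 ≤ u → u + 2 ≤ RR ε T →
      Real.exp 1 ^ (u + 2) * (((T + 1 : ℕ) : ℝ)) ^ (2 * (u + 2) - 2) * ws ^ ((u + 2).choose 2) /
        ((N : ℝ) ^ (u + 2 - 2) * ((u + 2).factorial : ℝ)) ≤ 1 := by
    intro u hu huR
    have hur : (1 : ℝ) ≤ u := by exact_mod_cast hu
    have huRr : (u : ℝ) + 2 ≤ RR ε T := by exact_mod_cast huR
    have hmain := gam_expo ε (bb p) (Real.log n) (Real.log ((T : ℝ) + 1)) T u hε hε1 hL hL2 hlam hLT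
      ha ha0 hur (by linarith)
    have hNpos : 0 < (N : ℝ) := lt_of_lt_of_le (Real.exp_pos _) hNr
    have hfac : (1 : ℝ) ≤ ((u + 2).factorial : ℝ) := by
      exact_mod_cast Nat.succ_le_of_lt (Nat.factorial_pos _)
    have e1 : Real.exp 1 ^ (u + 2) = Real.exp ((u : ℝ) + 2) := by
      rw [← Real.exp_nat_mul]
      push_cast
      ring_nf
    have e2 : (((T + 1 : ℕ) : ℝ)) ^ (2 * (u + 2) - 2) =
        Real.exp ((2 * (u : ℝ) + 2) * Real.log ((T : ℝ) + 1)) := by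
      have h : (((T + 1 : ℕ) : ℝ)) = Real.exp (Real.log ((T : ℝ) + 1)) := by
        rw [Real.exp_log (by linarith)]
        push_cast
        ring
      have h' : 2 * (u + 2) - 2 = 2 * u + 2 := by omega
      rw [h', h, ← Real.exp_nat_mul]
      push_cast
      ring_nf
    have e3 : ws ^ ((u + 2).choose 2) ≤
        Real.exp ((1 + (u : ℝ) * (u + 3) / 2) * ((1 + ε / 8) * bb p)) := by
      calc ws ^ ((u + 2).choose 2) ≤ (Real.exp ((1 + ε / 8) * bb p)) ^ ((u + 2).choose 2) :=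
            pow_le_pow_left₀ hws0 hws2 _
        _ = Real.exp ((((u + 2).choose 2 : ℕ) : ℝ) * ((1 + ε / 8) * bb p)) := by
            rw [← Real.exp_nat_mul]
        _ = _ := by rw [gam_choose]
    have e4 : Real.exp ((u : ℝ) * ((1 / 2 + ε) * Real.log n)) ≤ (N : ℝ) ^ (u + 2 - 2) := by
      have h' : u + 2 - 2 = u := by omega
      rw [h', Real.exp_nat_mul]
      exact pow_le_pow_left₀ (Real.exp_pos _).le hNr _
    rw [div_le_one (by positivity)]
    calc Real.exp 1 ^ (u + 2) * (((T + 1 : ℕ) : ℝ)) ^ (2 * (u + 2) - 2) * ws ^ ((u + 2).choose 2)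
        ≤ Real.exp ((u : ℝ) + 2) * Real.exp ((2 * (u : ℝ) + 2) * Real.log ((T : ℝ) + 1)) *
          Real.exp ((1 + (u : ℝ) * (u + 3) / 2) * ((1 + ε / 8) * bb p)) := by
          rw [e1, e2]
          exact mul_le_mul_of_nonneg_left e3 (by positivity)
      _ = Real.exp (((u : ℝ) + 2) + (2 * (u : ℝ) + 2) * Real.log ((T : ℝ) + 1) +
          (1 + (u : ℝ) * (u + 3) / 2) * ((1 + ε / 8) * bb p)) := by
          rw [← Real.exp_add, ← Real.exp_add]
      _ ≤ Real.exp ((u : ℝ) * ((1 / 2 + ε) * Real.log n)) := Real.exp_le_exp.mpr hmain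
      _ ≤ (N : ℝ) ^ (u + 2 - 2) := e4
      _ = (N : ℝ) ^ (u + 2 - 2) * 1 := (mul_one _).symm
      _ ≤ (N : ℝ) ^ (u + 2 - 2) * ((u + 2).factorial : ℝ) :=
          mul_le_mul_of_nonneg_left hfac (by positivity)
  -- term `r = 2`
  have hterm2 : Real.exp 1 ^ 2 * (((T + 1 : ℕ) : ℝ)) ^ (2 * 2 - 2) * ws ^ ((2 : ℕ).choose 2) /
        ((N : ℝ) ^ (2 - 2) * ((2 : ℕ).factorial : ℝ)) ≤ (T : ℝ) ^ 3 / 2 := by
    have h1 : ws ≤ Real.exp (2.03) := by
      refine hws2.trans (Real.exp_le_exp.mpr ?_)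
      nlinarith
    have he : Real.exp 1 < 2.7182818286 := Real.exp_one_lt_d9
    have hee : Real.exp 2.03 ≤ Real.exp 1 ^ 3 := by
      rw [← Real.exp_nat_mul]
      apply Real.exp_le_exp.mpr
      norm_num
    have hws3 : ws ≤ Real.exp 1 ^ 3 := h1.trans hee
    have h5 : Real.exp 1 ^ 5 ≤ 150 := by
      calc Real.exp 1 ^ 5 ≤ 2.72 ^ 5 := pow_le_pow_left₀ (Real.exp_pos 1).le (by linarith) _
        _ ≤ 150 := by norm_num
    have e0 : Real.exp 1 ^ 2 * (((T + 1 : ℕ) : ℝ)) ^ (2 * 2 - 2) * ws ^ ((2 : ℕ).choose 2) /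
        ((N : ℝ) ^ (2 - 2) * ((2 : ℕ).factorial : ℝ)) =
        Real.exp 1 ^ 2 * ((T : ℝ) + 1) ^ 2 * ws / 2 := by
      norm_num
    rw [e0]
    have h6 : Real.exp 1 ^ 2 * ws ≤ 150 := by
      calc Real.exp 1 ^ 2 * ws ≤ Real.exp 1 ^ 2 * Real.exp 1 ^ 3 :=
            mul_le_mul_of_nonneg_left hws3 (by positivity)
        _ = Real.exp 1 ^ 5 := by ring
        _ ≤ 150 := h5
    have h7 : ((T : ℝ) + 1) ^ 2 ≤ 2 * (T : ℝ) ^ 2 := by nlinarith
    have h8 : Real.exp 1 ^ 2 * ((T : ℝ) + 1) ^ 2 * ws ≤ 150 * (2 * (T : ℝ) ^ 2) := by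
      calc Real.exp 1 ^ 2 * ((T : ℝ) + 1) ^ 2 * ws = (Real.exp 1 ^ 2 * ws) * ((T : ℝ) + 1) ^ 2 := by
            ring
        _ ≤ 150 * (2 * (T : ℝ) ^ 2) := mul_le_mul h6 h7 (by positivity) (by norm_num)
    have h9 : 150 * (2 * (T : ℝ) ^ 2) ≤ (T : ℝ) ^ 3 - 2 * T := by
      nlinarith [mul_pos (show (0:ℝ) < T by linarith) (show (0:ℝ) < T by linarith)]
    linarith
  have hR2 : 2 ≤ RR ε T := by
    have h1 : (1 / 2 + ε / 2) * (T : ℝ) ≤ RR ε T := by
      unfold RR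
      exact Nat.le_ceil _
    have h2 : (2 : ℝ) ≤ RR ε T := by nlinarith
    exact_mod_cast h2
  unfold GG
  have hIcc : Icc 2 (RR ε T) = insert 2 (Icc 3 (RR ε T)) := by
    ext r
    simp only [mem_Icc, mem_insert]
    omega
  rw [hIcc, sum_insert (by simp)]
  have hsum : ∑ r ∈ Icc 3 (RR ε T), Real.exp 1 ^ r * (((T + 1 : ℕ) : ℝ)) ^ (2 * r - 2) *
      ws ^ (r.choose 2) / ((N : ℝ) ^ (r - 2) * (r.factorial : ℝ)) ≤ T := by
    calc ∑ r ∈ Icc 3 (RR ε T), Real.exp 1 ^ r * (((T + 1 : ℕ) : ℝ)) ^ (2 * r - 2) *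
        ws ^ (r.choose 2) / ((N : ℝ) ^ (r - 2) * (r.factorial : ℝ))
        ≤ ∑ r ∈ Icc 3 (RR ε T), (1 : ℝ) := by
          apply sum_le_sum
          intro r hr
          rw [mem_Icc] at hr
          obtain ⟨u, rfl⟩ : ∃ u, r = u + 2 := ⟨r - 2, by omega⟩
          exact hterm u (by omega) hr.2
      _ = ((Icc 3 (RR ε T)).card : ℝ) := by simp
      _ ≤ T := by
          rw [Nat.card_Icc]
          exact_mod_cast (show RR ε T + 1 - 3 ≤ T by omega)
  have hfin : (T : ℝ) ^ 3 / 2 + T ≤ (T : ℝ) ^ 3 := by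
    have h2 : (2 : ℝ) ≤ (T : ℝ) ^ 2 := by nlinarith
    have h3 : (T : ℝ) * 2 ≤ (T : ℝ) * (T : ℝ) ^ 2 := mul_le_mul_of_nonneg_left h2 (by linarith)
    have e : (T : ℝ) ^ 3 = (T : ℝ) * (T : ℝ) ^ 2 := by ring
    rw [e]
    linarith
  exact (add_le_add hterm2 hsum).trans hfin

end Pool.Agent.Helper3.UX
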