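import Mathlib
import Pool.Agent.Helper69.UX.StC

/-!
Project UX (MP_e12aa9_pr), module MGM: monotonicity for log-concave distributions.
-/

set_option autoImplicit false

namespace Pool.Agent.Helper3.UX
open Finset Filter Pool.Agent.Helper82.CN Pool.Agent.Helper11.PV Pool.Agent.Helper69.VX
  Pool.Agent.Helper69.UX

theorem lcCross (b : ℕ → ℝ) (M : ℕ) (hp : ∀ i, i < M → 0 < b i) (hz : ∀ i, M ≤ i → b i = 0)
    (hl : ∀ i, b i * b (i + 2) ≤ b (i + 1) ^ 2) (j i : ℕ) (hji : j ≤ i) :
    b j * b (i + 1) ≤ b (j + 1) * b i := by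
  have h0 : ∀ i, 0 ≤ b i := fun i => by
    rcases lt_or_ge i M with h | h
    · exact (hp i h).le
    · exact (hz i h).ge
  induction i, hji using Nat.le_induction with
  | base => exact (mul_comm _ _).le
  | succ i hi ih =>
    rcases lt_or_ge (i + 2) M with h | h
    · have hb : 0 < b i := hp i (by omega)
      have h1 : b i * (b j * b (i + 1 + 1)) ≤ b i * (b (j + 1) * b (i + 1)) := by
        calc b i * (b j * b (i + 1 + 1)) = b j * (b i * b (i + 2)) := by ring
          _ ≤ b j * b (i + 1) ^ 2 := mul_le_mul_of_nonneg_left (hl i) (h0 j)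
          _ = (b j * b (i + 1)) * b (i + 1) := by ring
          _ ≤ (b (j + 1) * b i) * b (i + 1) := mul_le_mul_of_nonneg_right ih (h0 _)
          _ = _ := by ring
      exact le_of_mul_le_mul_left h1 hb
    · rw [hz (i + 1 + 1) h, mul_zero]
      exact mul_nonneg (h0 _) (h0 _)

theorem ztSucc {a : ℕ → ℝ} {M : ℕ} (h : LC a M) (j : ℕ) : Zt a M j = Zt a M (j + 1) + a j := by
  unfold Zt
  rcases lt_or_ge j M with hj | hj
  · rw [Finset.sum_eq_sum_Ico_succ_bot hj]; ring
  · rw [Finset.Ico_eq_empty (by omega), Finset.Ico_eq_empty (by omega), h.zer j hj]; simp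

theorem ztZero {a : ℕ → ℝ} {M : ℕ} (j : ℕ) (hj : M ≤ j) : Zt a M j = 0 := by
  unfold Zt
  rw [Finset.Ico_eq_empty (by omega)]; simp

theorem ztPos {a : ℕ → ℝ} {M : ℕ} (h : LC a M) (j : ℕ) (hj : j < M) : 0 < Zt a M j := by
  unfold Zt
  refine Finset.sum_pos (fun i hi => h.pos i (Finset.mem_Ico.1 hi).2) ⟨j, ?_⟩
  rw [Finset.mem_Ico]; omega

theorem ztNonneg {a : ℕ → ℝ} {M : ℕ} (h : LC a M) (j : ℕ) : 0 ≤ Zt a M j := by
  rcases lt_or_ge j M with hj | hj
  · exact (ztPos h j hj).le
  · exact (ztZero j hj).ge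

theorem ztRange {a : ℕ → ℝ} {M : ℕ} (h : LC a M) (j : ℕ) :
    Zt a M j = ∑ l ∈ range M, a (j + l) := by
  unfold Zt
  rw [Finset.sum_Ico_eq_sum_range]
  refine Finset.sum_subset (fun x hx => ?_) fun x _ hx => h.zer _ ?_
  · rw [Finset.mem_range] at *; omega
  · rw [Finset.mem_range] at hx; omega

theorem utStep {a : ℕ → ℝ} {M : ℕ} (j : ℕ) : Ut a M j = Ut a M (j + 1) + Zt a M (j + 1) := by
  unfold Ut Zt
  have e : ∑ i ∈ Ico (j + 1) M, a i = ∑ i ∈ range M, if j + 1 ≤ i then a i else 0 := by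
    rw [← Finset.sum_filter]
    refine Finset.sum_congr ?_ fun _ _ => rfl
    ext x
    simp only [Finset.mem_Ico, Finset.mem_filter, Finset.mem_range]
    tauto
  rw [e, ← Finset.sum_add_distrib]
  refine Finset.sum_congr rfl fun i _ => ?_
  by_cases h : j + 1 ≤ i
  · rw [if_pos h]
    have : (i - j : ℕ) = (i - (j + 1) : ℕ) + 1 := by omega
    rw [this]; push_cast; ring
  · rw [if_neg h]
    have h1 : (i - j : ℕ) = 0 := by omega
    have h2 : (i - (j + 1) : ℕ) = 0 := by omega
    rw [h1, h2]; simp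

theorem utIter {a : ℕ → ℝ} {M : ℕ} (j L : ℕ) :
    Ut a M j = ∑ l ∈ range L, Zt a M (j + 1 + l) + Ut a M (j + L) := by
  induction L with
  | zero => simp
  | succ L ih =>
    rw [ih, Finset.sum_range_succ, utStep (j + L)]
    have e : j + L + 1 = j + 1 + L := by ring
    have e2 : j + (L + 1) = j + 1 + L := by ring
    rw [e, e2]; ring

theorem utSum {a : ℕ → ℝ} {M : ℕ} (j : ℕ) :
    Ut a M j = ∑ l ∈ range M, Zt a M (j + 1 + l) := by
  rw [utIter j M]
  have : Ut a M (j + M) = 0 := by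
    unfold Ut
    refine Finset.sum_eq_zero fun i hi => ?_
    rw [Finset.mem_range] at hi
    have : (i - (j + M) : ℕ) = 0 := by omega
    rw [this]; simp
  rw [this, add_zero]

theorem hMGM : StMGM := by
  intro a M h
  have c1 := lcCross a M h.pos h.zer h.lc
  have p1 : ∀ j, a j * Zt a M (j + 1) ≤ a (j + 1) * Zt a M j := by
    intro j
    rw [ztRange h, ztRange h, Finset.mul_sum, Finset.mul_sum]
    refine Finset.sum_le_sum fun l _ => ?_
    have := c1 j (j + l) (by omega)
    have e : j + 1 + l = j + l + 1 := by ring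
    rw [e]; exact this
  have zl : ∀ i, Zt a M i * Zt a M (i + 2) ≤ Zt a M (i + 1) ^ 2 := by
    intro i
    have e1 := ztSucc h i
    have e2 := ztSucc h (i + 1)
    have e3 := p1 i
    have e4 : Zt a M (i + 2) = Zt a M (i + 1) - a (i + 1) := by
      have : i + 1 + 1 = i + 2 := rfl
      rw [this] at e2; linarith
    have e5 : a i = Zt a M i - Zt a M (i + 1) := by linarith
    rw [e5] at e3
    rw [e4]
    have e6 : Zt a M i * (Zt a M (i + 1) - a (i + 1)) - Zt a M (i + 1) ^ 2
        = (Zt a M i - Zt a M (i + 1)) * Zt a M (i + 1) - a (i + 1) * Zt a M i := by ring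
    linarith
  have c2 := lcCross (Zt a M) M (ztPos h) (fun i hi => ztZero i hi) zl
  have z0 : Zt a M 0 = 1 := by
    unfold Zt; rw [← Finset.range_eq_Ico, h.sum]
  refine ⟨p1, ?_, ?_, utStep, z0, fun j _ => ztSucc h j⟩
  · intro j
    rw [utSum (j + 1), utSum j, Finset.sum_mul, Finset.sum_mul]
    refine Finset.sum_le_sum fun l _ => ?_
    have := c2 j (j + 1 + l) (by omega)
    have e : j + 1 + 1 + l = j + 1 + l + 1 := by ring
    rw [e]; linarith
  · have s1 : ∑ l ∈ range M, Zt a M l = 1 + Ut a M 0 := by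
      have q1 := Finset.sum_range_succ (fun l => Zt a M l) M
      have q2 := Finset.sum_range_succ' (fun l => Zt a M l) M
      have q3 : ∑ l ∈ range M, Zt a M (l + 1) = Ut a M 0 := by
        rw [utSum 0]
        refine Finset.sum_congr rfl fun l _ => ?_
        have : 0 + 1 + l = l + 1 := by ring
        rw [this]
      have q4 : Zt a M M = 0 := ztZero M le_rfl
      rw [q1, q3, q4, z0] at q2
      linarith
    have s2 : Ut a M 0 ≤ (1 - a 0) * ∑ l ∈ range M, Zt a M l := by
      rw [utSum 0, Finset.mul_sum]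
      refine Finset.sum_le_sum fun l _ => ?_
      have q1 := c2 0 l (by omega)
      have q2 := ztSucc h 0
      rw [z0] at q1 q2
      have e : 0 + 1 + l = l + 1 := by ring
      have q3 : Zt a M (0 + 1) = 1 - a 0 := by linarith
      rw [q3] at q1
      rw [e]; linarith
    rw [s1] at s2
    nlinarith [s2]

end Pool.Agent.Helper3.UX
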